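import Pool.Agent.W711.HT.Stm

/-! HT-BND -/

set_option autoImplicit false

namespace Pool.W335.HT

open Pool.Agent.W711.HT Filter Finset Topology Metric
open scoped Real

theorem bnd : S_B0 → S_B1 → S_BND := by
  rintro h0 ⟨ρs, h1, h2, h3⟩
  refine ⟨ρs, h1, h2, fun ε hε => ?_⟩
  obtain ⟨τ, hτ, hN⟩ := h0 ε hε
  refine ⟨τ, hτ, ?_⟩
  filter_upwards [hN] with N h d hd x y hx hy
  have hN0 : (0 : ℝ) < N := by exact_mod_cast (Nat.zero_le d).trans_lt hd
  have hdN : (d : ℝ) / N ≤ 1 := by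
    rw [div_le_one hN0]; exact_mod_cast hd.le
  have hd0 : 0 ≤ (d : ℝ) / N := by positivity
  have h4 := h3 ((d : ℝ) / N) x hd0 hdN hx
  refine (h d hd x y hx hy).trans ?_
  refine mul_le_mul_of_nonneg_left (Real.exp_le_exp.2 ?_) (sq_nonneg _)
  exact mul_le_mul_of_nonneg_left (by linarith) hN0.le

theorem fard : S_B0 → S_B2 → S_FARD := by
  intro h0 h2 ρ hρ
  obtain ⟨κ, hκ, h3⟩ := h2 ρ hρ
  obtain ⟨τ, hτ, hN⟩ := h0 (κ / 2) (by positivity)
  refine ⟨κ / 2, by positivity, τ, hτ, ?_⟩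
  filter_upwards [hN] with N h d hd hdρ x y hx hy
  have hN0 : (0 : ℝ) < N := by exact_mod_cast (Nat.zero_le d).trans_lt hd
  have hdN : (d : ℝ) / N ≤ 1 := by
    rw [div_le_one hN0]; exact_mod_cast hd.le
  have hd0 : 0 ≤ (d : ℝ) / N := by positivity
  have h4 := h3 ((d : ℝ) / N) x hd0 hdN hx hdρ
  refine (h d hd x y hx hy).trans ?_
  refine mul_le_mul_of_nonneg_left (Real.exp_le_exp.2 ?_) (sq_nonneg _)
  exact mul_le_mul_of_nonneg_left (by linarith) hN0.le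

end Pool.W335.HT
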